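import Pool.Agent.Helper76.SGA.Goals

/-!
# Packet SGA-RNZ: the resultant of an irreducible polynomial and a polynomial it does not divide

Over a unique factorization domain, by the Gauss lemma and a Bezout identity over the fraction field.
-/

set_option autoImplicit false

namespace Pool.Agent.Helper69.SGA

theorem rnz : Pool.Agent.Helper76.SGA.RNZ := by
  intro A _ _ _ F G hF hd hFG hG
  have hprim : F.IsPrimitive := hF.isPrimitive (by omega)
  have hinj : Function.Injective (algebraMap A (FractionRing A)) :=
    IsFractionRing.injective A (FractionRing A)
  have hirr : Irreducible (F.map (algebraMap A (FractionRing A))) :=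
    (hprim.irreducible_iff_irreducible_map_fraction_map).1 hF
  have hnd : ¬ F.map (algebraMap A (FractionRing A)) ∣ G.map (algebraMap A (FractionRing A)) := by
    intro h
    exact hFG ((hprim.dvd_iff_fraction_map_dvd_fraction_map (FractionRing A)).2 h)
  have hcop : IsCoprime (F.map (algebraMap A (FractionRing A)))
      (G.map (algebraMap A (FractionRing A))) := hirr.coprime_iff_not_dvd.2 hnd
  have hne := Polynomial.resultant_ne_zero _ _ hcop
  rw [Polynomial.natDegree_map_eq_of_injective hinj,
    Polynomial.natDegree_map_eq_of_injective hinj, Polynomial.resultant_map_map] at hne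
  have hne' : Polynomial.resultant F G F.natDegree G.natDegree ≠ 0 := by
    intro h0
    apply hne
    rw [h0, map_zero]
  obtain ⟨k, hk⟩ := Nat.exists_eq_add_of_le hG
  have hres : Polynomial.resultant F G F.natDegree (G.natDegree + k) =
      F.coeff F.natDegree ^ k * Polynomial.resultant F G F.natDegree G.natDegree :=
    Polynomial.resultant_add_right_deg _ _ _ _ k le_rfl
  rw [← hk] at hres
  rw [hres]
  refine mul_ne_zero (pow_ne_zero _ ?_) hne'
  rw [Polynomial.coeff_natDegree]
  exact Polynomial.leadingCoeff_ne_zero.2 hF.ne_zero

end Pool.Agent.Helper69.SGA
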